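import Pool.Agent.helper43.BMH.Spec

set_option autoImplicit false

/-!
# Row bmh:HPQ
-/

namespace Pool.Agent.helper43.BMH

open scoped ENNReal
open Pool.Agent.helper75.BM (nrm nrm_eq nrm_top nrm_anti nrm_nonneg toReal_ge coord_le)

section

variable {p q : ℝ≥0∞} [hp : Fact (1 ≤ p)] [hq : Fact (1 ≤ q)]

theorem HPQ_B (h : HYN) (hp2 : p < 2) (hq2 : 2 < q) (hqt : q ≠ ⊤)
    (hc : 1 - 1 / p.toReal ≤ 1 / q.toReal) {d : ℕ} {H : Matrix (Fin d) (Fin d) ℝ}
    (hH : IsHad H) (x : Fin d → ℝ) :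
    nrm q (H.mulVec x) ≤ (d : ℝ) ^ (1 / q.toReal) * nrm p x := by
  have hpt : p ≠ ⊤ := (hp2.trans ENNReal.ofNat_lt_top).ne
  have hp1 := toReal_ge (p := p) hpt
  have hq2' : 2 < q.toReal := by
    have := (ENNReal.toReal_lt_toReal (by norm_num) hqt).2 hq2
    simpa using this
  set b := q.toReal with hb
  set a := b / (b - 1) with ha
  have hb1 : 0 < b - 1 := by linarith
  have ha1 : 1 < a := by rw [ha, lt_div_iff₀ hb1]; linarith
  have ha2 : a ≤ 2 := by rw [ha, div_le_iff₀ hb1]; linarith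
  have hab : 1 / a + 1 / b = 1 := by rw [ha]; field_simp; ring
  have h1 := h d H hH a b ha1 ha2 hab (by linarith) x
  have h2 : (∑ i, |x i| ^ a) ^ (1 / a) ≤ nrm p x := by
    have hfa : Fact (1 ≤ ENNReal.ofReal a) := ⟨by
      rw [← ENNReal.ofReal_one]; exact ENNReal.ofReal_le_ofReal ha1.le⟩
    have h3 : p ≤ ENNReal.ofReal a := by
      rw [← ENNReal.ofReal_toReal hpt]
      apply ENNReal.ofReal_le_ofReal
      have h4 : 1 / a ≤ 1 / p.toReal := by linarith
      rwa [one_div_le_one_div (by linarith) (by linarith)] at h4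
    have h5 := nrm_anti (p := p) (q := ENNReal.ofReal a) h3 x
    rw [nrm_eq (p := ENNReal.ofReal a) ENNReal.ofReal_ne_top,
      ENNReal.toReal_ofReal (by linarith)] at h5
    exact h5
  rw [nrm_eq (p := q) hqt]
  exact h1.trans (mul_le_mul_of_nonneg_left h2 (by positivity))

theorem HPQ_A (h : HYN) (hp2 : p < 2) (hc : (1 / q).toReal ≤ 1 - 1 / p.toReal) {d : ℕ}
    (hd : 0 < d) {H : Matrix (Fin d) (Fin d) ℝ} (hH : IsHad H) (x : Fin d → ℝ) :
    nrm q (H.mulVec x) ≤ (d : ℝ) ^ (1 - 1 / p.toReal) * nrm p x := by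
  have hpt : p ≠ ⊤ := (hp2.trans ENNReal.ofNat_lt_top).ne
  have hp1 := toReal_ge (p := p) hpt
  have hp2' : p.toReal < 2 := by
    have := (ENNReal.toReal_lt_toReal hpt (by norm_num)).2 hp2
    simpa using this
  rcases hp1.eq_or_lt with h1 | h1
  · -- the case `p = 1`, `q = ⊤`
    rw [← h1] at hc ⊢
    rw [one_div_one, sub_self] at hc ⊢
    rw [Real.rpow_zero, one_mul]
    have hqt : q = ⊤ := by
      have h2 : (1 / q).toReal = 0 := le_antisymm hc ENNReal.toReal_nonneg
      rw [ENNReal.toReal_eq_zero_iff] at h2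
      rcases h2 with h2 | h2
      · rw [one_div, ENNReal.inv_eq_zero] at h2; exact h2
      · rw [one_div, ENNReal.inv_eq_top] at h2
        exact absurd (h2 ▸ hq.out) (by simp)
    have e1 : nrm p x = ∑ i, |x i| := by
      rw [nrm_eq (p := p) hpt, ← h1]; simp
    subst hqt
    have e2 : nrm ⊤ (H.mulVec x) = ⨆ i, |H.mulVec x i| := nrm_top (H.mulVec x)
    rw [e1, e2]
    have : Nonempty (Fin d) := ⟨⟨0, hd⟩⟩
    refine ciSup_le fun i => ?_
    have e3 : H.mulVec x i = ∑ j, H i j * x j := rfl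
    rw [e3]
    refine (Finset.abs_sum_le_sum_abs _ _).trans (Finset.sum_le_sum fun j _ => ?_)
    rw [abs_mul]
    rcases hH.1 i j with h3 | h3
    · rw [h3, abs_one, one_mul]
    · rw [h3, abs_neg, abs_one, one_mul]
  · set a := p.toReal with ha
    set b := a / (a - 1) with hb
    have ha1 : 0 < a - 1 := by linarith
    have hb1 : 2 ≤ b := by rw [hb, le_div_iff₀ ha1]; linarith
    have hab : 1 / a + 1 / b = 1 := by rw [hb]; field_simp; ring
    have h3 := h d H hH a b h1 hp2'.le hab (by linarith) x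
    have hfb : Fact (1 ≤ ENNReal.ofReal b) := ⟨by
      rw [← ENNReal.ofReal_one]; exact ENNReal.ofReal_le_ofReal (by linarith)⟩
    have h4 : ENNReal.ofReal b ≤ q := by
      by_cases hqt : q = ⊤
      · rw [hqt]; exact le_top
      · have hq1 := toReal_ge (p := q) hqt
        rw [← ENNReal.ofReal_toReal hqt]
        apply ENNReal.ofReal_le_ofReal
        rw [ENNReal.toReal_div, ENNReal.toReal_one] at hc
        have h5 : 1 / q.toReal ≤ 1 / b := by linarith
        rwa [one_div_le_one_div (by linarith) (by linarith)] at h5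
    have h5 := nrm_anti (p := ENNReal.ofReal b) (q := q) h4 (H.mulVec x)
    rw [nrm_eq (p := ENNReal.ofReal b) ENNReal.ofReal_ne_top,
      ENNReal.toReal_ofReal (by linarith)] at h5
    have e : 1 - 1 / a = 1 / b := by linarith
    rw [e, nrm_eq (p := p) hpt]
    exact h5.trans h3

end

theorem t_hpq (h : HYN) : HPQ := by
  intro p q hp hq hp2 hq2 d H hd hH x
  have hpt : p ≠ ⊤ := (hp2.trans ENNReal.ofNat_lt_top).ne
  have ep : (1 / p).toReal = 1 / p.toReal := by rw [ENNReal.toReal_div, ENNReal.toReal_one]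
  rcases le_total (1 / q).toReal (1 - (1 / p).toReal) with h1 | h1
  · rw [max_eq_right h1]
    rw [ep] at h1 ⊢
    exact HPQ_A h hp2 h1 hd hH x
  · rw [max_eq_left h1]
    by_cases hqt : q = ⊤
    · have h0 : (1 / q).toReal = 0 := by rw [hqt]; simp
      have hp1 := toReal_ge (p := p) hpt
      have h2 : 1 / p.toReal ≤ 1 := by rw [div_le_one (by linarith)]; exact hp1
      have h3 := HPQ_A (q := q) h hp2 (by rw [h0]; linarith) hd hH x
      refine h3.trans (le_of_eq ?_)
      rw [h0, ep] at h1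
      have h4 : 1 / p.toReal = 1 := by linarith
      rw [h0, h4, sub_self]
    · have eq' : (1 / q).toReal = 1 / q.toReal := by
        rw [ENNReal.toReal_div, ENNReal.toReal_one]
      have h2 := HPQ_B (q := q) h hp2 hq2 hqt (by rw [eq', ep] at h1; linarith) hH x
      rw [eq']
      exact h2

end Pool.Agent.helper43.BMH
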